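import Pool.Agent.H535R3.JY

set_option autoImplicit false
open Filter Topology

namespace Pool.Agent.Results.MP_be172b_an.AxisUpperBound

/-- For every frequency `ω > 0`, every integer `r ≥ 1` and every `A`, the rotation number of the
equation `φ' = (1/ω)(-sin φ + ω r + A cos τ)`, that is at the point `(ω r, A)` of the line `Λ_r`, is at most
`r`; in particular it is never `r + 1`, so the phase-lock area `L_{r+1}` does not meet `Λ_r`. -/
theorem result : ∀ ω : ℝ, 0 < ω → ∀ r : ℕ, 1 ≤ r → ∀ A : ℝ, ∀ φ : ℝ → ℝ,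
    (∀ τ : ℝ, HasDerivAt φ (1 / ω * (-Real.sin (φ τ) + ω * r + A * Real.cos τ)) τ) →
    ∀ ρ : ℝ, Tendsto (fun τ : ℝ => φ τ / τ) atTop (𝓝 ρ) → ρ ≤ r :=
  H535R3.axis_main

end Pool.Agent.Results.MP_be172b_an.AxisUpperBound
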